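import Pool.Agent.Helper65.KH.Goals

/-! # Project KH, packet FR: faces -/

set_option autoImplicit false

open MvPolynomial

namespace Pool.Agent.Helper95.KH.FR

open Pool.Agent.Helper65.KH

variable {ι : Type} [Fintype ι] [DecidableEq ι]

/-- the restriction map: `x_j ↦ 0` for `j ∉ I` -/
noncomputable def ph (I : Finset ι) : MvPolynomial ι ℚ →ₐ[ℚ] MvPolynomial I ℚ :=
  aeval fun i => if h : i ∈ I then X ⟨i, h⟩ else 0

theorem ph_mem (I : Finset ι) {i : ι} (h : i ∈ I) : ph I (X i) = X ⟨i, h⟩ := by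
  unfold ph
  rw [aeval_X, dif_pos h]

theorem ph_not (I : Finset ι) {i : ι} (h : i ∉ I) : ph I (X i) = 0 := by
  unfold ph
  rw [aeval_X, dif_neg h]

theorem ph_surj (I : Finset ι) : Function.Surjective (ph I) := by
  intro g
  refine ⟨rename (fun i : I => (i : ι)) g, ?_⟩
  have h : (ph I).comp (rename fun i : I => (i : ι)) = AlgHom.id ℚ _ := by
    apply algHom_ext
    intro i
    rw [AlgHom.comp_apply, rename_X, ph_mem I i.2]
    rfl
  exact AlgHom.congr_fun h g

theorem ph_mon_of (I : Finset ι) (p : ι → ℕ) (h : ∀ j, j ∉ I → p j = 0) :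
    ph I (mon p) = mon (fun i : I => p i) := by
  unfold mon
  rw [map_prod, ← Finset.prod_subset (Finset.subset_univ I), ← Finset.prod_coe_sort I]
  · refine Finset.prod_congr rfl fun i _ => ?_
    rw [map_pow, ph_mem I i.2]
  · intro j _ hj
    rw [h j hj, pow_zero, map_one]

theorem ph_mon_not (I : Finset ι) (p : ι → ℕ) (j : ι) (hj : j ∉ I) (hp : p j ≠ 0) :
    ph I (mon p) = 0 := by
  unfold mon
  rw [map_prod]
  apply Finset.prod_eq_zero (Finset.mem_univ j)
  rw [map_pow, ph_not I hj, zero_pow hp]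

theorem ph_Lp (V : Finset (ι → ℕ)) (I : Finset ι) (i : I) :
    ph I (Lp V i) = Lp (res V I) i := by
  unfold Lp res
  rw [map_sum, Finset.sum_image]
  · rw [Finset.sum_filter]
    refine Finset.sum_congr rfl fun v _ => ?_
    rw [map_smul]
    split_ifs with h
    · rw [ph_mon_of I v h]
    · push Not at h
      obtain ⟨j, hj, hv⟩ := h
      rw [ph_mon_not I v j hj hv, smul_zero]
  · intro v hv v' hv' hvv
    funext j
    by_cases hj : j ∈ I
    · exact congrFun hvv ⟨j, hj⟩
    · rw [(Finset.mem_filter.1 hv).2 j hj, (Finset.mem_filter.1 hv').2 j hj]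

theorem map_idl (V : Finset (ι → ℕ)) (I : Finset ι) :
    Ideal.map (ph I) (idl fun i => if i ∈ I then Lp V i else X i) = idl (Lp (res V I)) := by
  unfold idl
  rw [Ideal.map_span]
  apply le_antisymm
  · rw [Ideal.span_le]
    rintro _ ⟨_, ⟨i, rfl⟩, rfl⟩
    by_cases h : i ∈ I
    · simp only [h, if_true]
      rw [ph_Lp V I ⟨i, h⟩]
      exact Ideal.subset_span ⟨⟨i, h⟩, rfl⟩
    · simp only [h, if_false]
      rw [ph_not I h]
      exact Ideal.zero_mem _
  · rw [Ideal.span_le]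
    rintro _ ⟨i, rfl⟩
    refine Ideal.subset_span ⟨_, ⟨(i : ι), rfl⟩, ?_⟩
    simp only [i.2, if_true]
    exact ph_Lp V I i

theorem sum_res (I : Finset ι) (p : ι → ℕ) (h : ∀ j, j ∉ I → p j = 0) :
    ∑ i : I, p i = ∑ i, p i := by
  rw [Finset.sum_coe_sort I p]
  exact Finset.sum_subset (Finset.subset_univ I) fun j _ hj => h j hj

theorem map_mm (I : Finset ι) (M : ℕ) : Ideal.map (ph I) (mm ι M) = mm I M := by
  unfold mm
  rw [Ideal.map_span]
  apply le_antisymm
  · rw [Ideal.span_le]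
    rintro _ ⟨_, ⟨p, hp, rfl⟩, rfl⟩
    by_cases h : ∀ j, j ∉ I → p j = 0
    · rw [ph_mon_of I p h]
      refine Ideal.subset_span ⟨_, ?_, rfl⟩
      rw [sum_res I p h]
      exact hp
    · push Not at h
      obtain ⟨j, hj, hv⟩ := h
      rw [ph_mon_not I p j hj hv]
      exact Ideal.zero_mem _
  · rw [Ideal.span_le]
    rintro _ ⟨q, hq, rfl⟩
    obtain ⟨p, hp0, hp1⟩ : ∃ p : ι → ℕ, (∀ j, j ∉ I → p j = 0) ∧ (fun i : I => p i) = q := by
      refine ⟨fun i => if h : i ∈ I then q ⟨i, h⟩ else 0, fun j hj => dif_neg hj, ?_⟩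
      funext i
      exact dif_pos i.2
    refine Ideal.subset_span ⟨mon p, ⟨p, ?_, rfl⟩, ?_⟩
    · rw [← sum_res I p hp0]
      have h1 : ∑ i : I, p i = ∑ i : I, q i := by rw [← hp1]
      rw [h1]
      exact hq
    · rw [ph_mon_of I p hp0, hp1]

theorem ker_le (V : Finset (ι → ℕ)) (I : Finset ι) :
    RingHom.ker (ph I) ≤ idl fun i => if i ∈ I then Lp V i else X i := by
  intro f hf
  rw [RingHom.mem_ker] at hf
  set N : Ideal (MvPolynomial ι ℚ) := idl fun i => if i ∈ I then Lp V i else X i with hN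
  have h : (Ideal.Quotient.mkₐ ℚ N) =
      ((Ideal.Quotient.mkₐ ℚ N).comp (rename fun i : I => (i : ι))).comp (ph I) := by
    apply algHom_ext
    intro i
    rw [AlgHom.comp_apply, AlgHom.comp_apply]
    by_cases hi : i ∈ I
    · rw [ph_mem I hi, rename_X]
    · rw [ph_not I hi, map_zero, map_zero]
      refine Ideal.Quotient.eq_zero_iff_mem.2 (Ideal.subset_span ⟨i, ?_⟩)
      simp only [hi, if_false]
  have h2 := AlgHom.congr_fun h f
  rw [AlgHom.comp_apply, hf, map_zero] at h2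
  exact Ideal.Quotient.eq_zero_iff_mem.1 h2

theorem t : S_FR := by
  intro ι _ _ V I M
  have hmap : Ideal.map (ph I) ((idl fun i => if i ∈ I then Lp V i else X i) ⊔ mm ι M) =
      idl (Lp (res V I)) ⊔ mm I M := by rw [Ideal.map_sup, map_idl, map_mm]
  have hker : RingHom.ker (ph I) ≤ (idl fun i => if i ∈ I then Lp V i else X i) ⊔ mm ι M :=
    (ker_le V I).trans le_sup_left
  have hψs : Function.Surjective
      ((Ideal.Quotient.mkₐ ℚ (idl (Lp (res V I)) ⊔ mm I M)).comp (ph I)) :=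
    (Ideal.Quotient.mkₐ_surjective ℚ _).comp (ph_surj I)
  have hψk : RingHom.ker ((Ideal.Quotient.mkₐ ℚ (idl (Lp (res V I)) ⊔ mm I M)).comp (ph I)) =
      (idl fun i => if i ∈ I then Lp V i else X i) ⊔ mm ι M := by
    ext f
    rw [RingHom.mem_ker]
    show Ideal.Quotient.mk (idl (Lp (res V I)) ⊔ mm I M) (ph I f) = 0 ↔ _
    rw [Ideal.Quotient.eq_zero_iff_mem, ← hmap, ← Ideal.mem_comap,
      Ideal.comap_map_of_surjective' (ph I) (ph_surj I), sup_eq_left.2 hker]
  unfold dq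
  rw [← hψk]
  exact (Ideal.quotientKerAlgEquivOfSurjective hψs).toLinearEquiv.finrank_eq

end Pool.Agent.Helper95.KH.FR
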